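import Pool.Agent.Results.MP_ca2859_nt.RationalWeierstrassPoints

/-!
# Hyperelliptic curves with rational Weierstrass points: the number of the exceptional configurations

The starting theorem `RationalWeierstrassPoints` of the problem in a form which is used by the tools for windows
(`count_of` is copied from the starting file `MultiplicativeValues`, to keep the closure small).
-/

set_option autoImplicit false

open NumberField Height Finset LinearAlgebra.Projectivization Polynomial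
open Pool.Agent.W318 (discNorm badNorm)

namespace Pool.Agent.T9h59.HC

open Pool.Agent.Results.MP_ca2859_nt
open RationalWeierstrassPoints (roots curve expo expoBelow)

/-- The roots `0, x_0, …, x_n` are different, `x` being a representative of `P`. -/
def Config {K : Type} [Field K] {n : ℕ} (P : ℙ K (Fin (n + 1) → K)) : Prop :=
  Function.Injective (roots P.rep)

/-- `Δ_C ≤ c M_C ^ κ` for ALL quadratic twists `C : y² = d X ∏ (X - x_i)`. -/
def AllTwists {K : Type} [Field K] [NumberField K] {n : ℕ} (g : ℕ) (κ c : ℝ) (P : ℙ K (Fin (n + 1) → K)) : Prop :=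
  ∀ d : K, d ≠ 0 → (discNorm g (curve d P.rep) : ℝ) ≤ c * (badNorm g (curve d P.rep) : ℝ) ^ κ

/-- `Δ_C > c M_C ^ κ` for some quadratic twist `C : y² = d X ∏ (X - x_i)`. -/
def SomeTwist {K : Type} [Field K] [NumberField K] {n : ℕ} (g : ℕ) (κ c : ℝ) (P : ℙ K (Fin (n + 1) → K)) : Prop :=
  ∃ d : K, d ≠ 0 ∧ c * (badNorm g (curve d P.rep) : ℝ) ^ κ < (discNorm g (curve d P.rep) : ℝ)

/-- The exponent: `2 g e_κ` is `expo g κ` for `κ > 4 g + 4`. -/
noncomputable def eAbove (g : ℕ) (κ : ℝ) : ℝ := expo g κ / (2 * g)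

/-- The exponent below `4 g + 4`. -/
noncomputable def eBelow (g : ℕ) (κ : ℝ) : ℝ := expoBelow g κ / (2 * g)

lemma count_of {K : Type} [Field K] [NumberField K] {g n : ℕ} (hg : 2 ≤ g) (S : Set (ℙ K (Fin (n + 1) → K)))
    (F : ℝ → Set (ℙ K (Fin (n + 1) → K))) (e : ℝ)
    (hF : ∀ δ : ℝ, 0 < δ → ∃ M : ℝ, ∀ B : ℝ, 1 ≤ B → (F B).Finite ∧
      ((F B).ncard : ℝ) ≤ M * B ^ (Module.finrank ℚ K * e + δ))
    (hS : ∀ P ∈ S, ∀ B : ℝ, 1 ≤ B → Real.log P.mulHeight / Module.finrank ℚ K ≤ Real.log B → P ∈ F B)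
    (ε : ℝ) (hε : 0 < ε) :
    ∃ C : ℝ, ∀ X : ℝ, 1 ≤ X →
      {P | P ∈ S ∧ P.mulHeight ^ (2 * g) ≤ X}.Finite ∧
      ({P | P ∈ S ∧ P.mulHeight ^ (2 * g) ≤ X}.ncard : ℝ) ≤ C * X ^ (e / (2 * g) + ε) := by
  have hd : (0 : ℝ) < (Module.finrank ℚ K : ℝ) := by exact_mod_cast Module.finrank_pos
  set d : ℝ := (Module.finrank ℚ K : ℝ) with hd'
  have hg0 : (0 : ℝ) < g := by exact_mod_cast (by omega : 0 < g)
  obtain ⟨M, hM⟩ := hF (2 * g * d * ε) (by positivity)
  refine ⟨M, fun X hX => ?_⟩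
  have hX0 : 0 < X := by linarith
  have hB : 1 ≤ X ^ (1 / (2 * g * d)) := Real.one_le_rpow hX (by positivity)
  obtain ⟨hfin, hcard⟩ := hM (X ^ (1 / (2 * g * d))) hB
  have hsub : {P | P ∈ S ∧ P.mulHeight ^ (2 * g) ≤ X} ⊆ F (X ^ (1 / (2 * g * d))) := by
    rintro P ⟨hP, hPX⟩
    apply hS P hP _ hB
    have h1 : 0 < P.mulHeight := P.mulHeight_pos
    have h2 : Real.log (P.mulHeight ^ (2 * g)) ≤ Real.log X := Real.log_le_log (by positivity) hPX
    rw [Real.log_pow] at h2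
    rw [Real.log_rpow hX0, div_le_iff₀ hd]
    push_cast at h2
    have h3 : Real.log P.mulHeight ≤ Real.log X / (2 * g) := by
      rw [le_div_iff₀ (by positivity)]
      linarith
    refine h3.trans (le_of_eq ?_)
    field_simp
  refine ⟨hfin.subset hsub, ?_⟩
  have h4 : ({P | P ∈ S ∧ P.mulHeight ^ (2 * g) ≤ X}.ncard : ℝ) ≤ ((F (X ^ (1 / (2 * g * d)))).ncard : ℝ) := by
    exact_mod_cast Set.ncard_le_ncard hsub hfin
  refine (h4.trans hcard).trans (le_of_eq ?_)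
  rw [← Real.rpow_mul hX0.le]
  congr 2
  field_simp

theorem eAbove_nonneg {g : ℕ} {κ : ℝ} (hg : 2 ≤ g) (hκ : 4 * g + 4 < κ) : 0 ≤ eAbove g κ := by
  have hg2 : (2 : ℝ) ≤ g := by exact_mod_cast hg
  have hs : 0 ≤ expo g κ := by
    have hk : 0 < κ - 4 * g - 2 := by linarith
    unfold expo
    refine le_min ((by linarith : (0 : ℝ) ≤ 2 * g - 1 / 2).trans (le_max_left _ _)) (le_min ?_ ?_)
    · positivity
    · have : (0 : ℝ) ≤ 2 * g - 1 := by linarith
      positivity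
  unfold eAbove
  positivity

theorem eBelow_nonneg {g : ℕ} {κ : ℝ} (hg : 2 ≤ g) : 0 ≤ eBelow g κ := by
  have hg2 : (2 : ℝ) ≤ g := by exact_mod_cast hg
  have hs : 0 ≤ expoBelow g κ := by
    unfold expoBelow
    exact (by linarith : (0 : ℝ) ≤ 2 * g - 1 / 2).trans (le_max_left _ _)
  unfold eBelow
  positivity

theorem eAbove_lt (K : Type) [Field K] [NumberField K] {g n : ℕ} {κ : ℝ} (hg : 2 ≤ g) (hn : n + 1 = 2 * g)
    (hκ : 4 * g + 4 < κ) : eAbove g κ < 1 := by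
  have h := ((RationalWeierstrassPoints.result K g n hg hn κ).1 hκ).1
  have hg2 : (2 : ℝ) ≤ g := by exact_mod_cast hg
  unfold eAbove
  rw [div_lt_one (by linarith)]
  exact h

theorem eBelow_lt (K : Type) [Field K] [NumberField K] {g n : ℕ} {κ : ℝ} (hg : 2 ≤ g) (hn : n + 1 = 2 * g)
    (hκ0 : 0 ≤ κ) (hκ : κ < 4 * g + 4) : eBelow g κ < 1 := by
  have h := ((RationalWeierstrassPoints.result K g n hg hn κ).2 hκ0 hκ).1
  have hg2 : (2 : ℝ) ≤ g := by exact_mod_cast hg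
  unfold eBelow
  rw [div_lt_one (by linarith)]
  exact h

/-- the number of the configurations for which the inequality fails for some twist, `κ > 4 g + 4` -/
theorem count_above (K : Type) [Field K] [NumberField K] {g n : ℕ} {κ c : ℝ} (hg : 2 ≤ g) (hn : n + 1 = 2 * g)
    (hc : 0 < c) (hκ : 4 * g + 4 < κ) : ∀ ε : ℝ, 0 < ε → ∃ C : ℝ, ∀ X : ℝ, 1 ≤ X →
    {P : ℙ K (Fin (n + 1) → K) | (Config P ∧ ¬ AllTwists g κ c P) ∧ P.mulHeight ^ (2 * g) ≤ X}.Finite ∧
      ({P : ℙ K (Fin (n + 1) → K) | (Config P ∧ ¬ AllTwists g κ c P) ∧ P.mulHeight ^ (2 * g) ≤ X}.ncard : ℝ) ≤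
        C * X ^ (eAbove g κ + ε) := by
  obtain ⟨-, h2⟩ := (RationalWeierstrassPoints.result K g n hg hn κ).1 hκ
  exact count_of hg {P : ℙ K (Fin (n + 1) → K) | Config P ∧ ¬ AllTwists g κ c P}
    (fun B => RationalWeierstrassPoints.exceptional K g n κ c B) (expo g κ)
    (fun δ hδ => h2 c δ hc hδ) (fun P hP B hB hB2 => by
      have h3 := hP.2
      unfold AllTwists at h3
      push Not at h3
      exact ⟨hP.1, hB2, h3⟩)

/-- the number of the configurations for which the inequality holds for all twists, `κ < 4 g + 4` -/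
theorem count_below (K : Type) [Field K] [NumberField K] {g n : ℕ} {κ c : ℝ} (hg : 2 ≤ g) (hn : n + 1 = 2 * g)
    (hc : 0 < c) (hκ0 : 0 ≤ κ) (hκ : κ < 4 * g + 4) : ∀ ε : ℝ, 0 < ε → ∃ C : ℝ, ∀ X : ℝ, 1 ≤ X →
    {P : ℙ K (Fin (n + 1) → K) | (Config P ∧ ¬ SomeTwist g κ c P) ∧ P.mulHeight ^ (2 * g) ≤ X}.Finite ∧
      ({P : ℙ K (Fin (n + 1) → K) | (Config P ∧ ¬ SomeTwist g κ c P) ∧ P.mulHeight ^ (2 * g) ≤ X}.ncard : ℝ) ≤
        C * X ^ (eBelow g κ + ε) := by
  obtain ⟨-, h2⟩ := (RationalWeierstrassPoints.result K g n hg hn κ).2 hκ0 hκ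
  exact count_of hg {P : ℙ K (Fin (n + 1) → K) | Config P ∧ ¬ SomeTwist g κ c P}
    (fun B => RationalWeierstrassPoints.uniform K g n κ c B) (expoBelow g κ)
    (fun δ hδ => h2 c δ hc hδ) (fun P hP B hB hB2 => by
      have h3 := hP.2
      unfold SomeTwist at h3
      push Not at h3
      exact ⟨hP.1, hB2, h3⟩)

end Pool.Agent.T9h59.HC
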